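import Pool.Agent.H81.MPS.SixNine
import Pool.Agent.H81.MPS.SevenTen
import Pool.Agent.H81.MPS.NineTwelve
import Pool.Agent.H81.MPS.EightEleven
import Pool.Agent.H81.MPA.Mu

set_option autoImplicit false

/-!
`M(d, d + 3)` for `d = 6, 7, 8, 9`: explicit polytopes given by integer inequalities, with
certificates. The values are `M(6, 9) ≥ 29`, `M(7, 10) ≥ 40`, `M(8, 11) ≥ 54`, `M(9, 12) ≥ 70`.
-/

namespace Pool.Agent.Results.MP_113932_co.DPlusThree

open Pool.Agent.H81.MonoPath Pool.Agent.H81.MPA

/-- For `d = 6, 7, 8, 9` there is a `d`-dimensional polyhedron with exactly `d + 3` facets which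
has a monotone path with `μ(d + 3, d)` vertices if `d` is odd and with `μ(d + 3, d) - 1` vertices
if `d` is even. -/
theorem result : ∀ d : ℕ, 6 ≤ d → d ≤ 9 →
    HasMonotonePath d (d + 3) (mu (d + 3) d - (if Even d then 1 else 0)) := by
  intro d h6 h9
  interval_cases d
  · have e : mu 9 6 - (if Even 6 then 1 else 0) = 29 := by decide
    show HasMonotonePath 6 9 (mu 9 6 - (if Even 6 then 1 else 0))
    rw [e]
    exact Pool.Agent.H81.MPS.SixNine.result
  · have e : mu 10 7 - (if Even 7 then 1 else 0) = 40 := by decide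
    show HasMonotonePath 7 10 (mu 10 7 - (if Even 7 then 1 else 0))
    rw [e]
    exact Pool.Agent.H81.MPS.SevenTen.result
  · have e : mu 11 8 - (if Even 8 then 1 else 0) = 54 := by decide
    show HasMonotonePath 8 11 (mu 11 8 - (if Even 8 then 1 else 0))
    rw [e]
    exact Pool.Agent.H81.MPS.EightEleven.result
  · have e : mu 12 9 - (if Even 9 then 1 else 0) = 70 := by decide
    show HasMonotonePath 9 12 (mu 12 9 - (if Even 9 then 1 else 0))
    rw [e]
    exact Pool.Agent.H81.MPS.NineTwelve.result

end Pool.Agent.Results.MP_113932_co.DPlusThree
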