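import Pool.Agent.H81.MP5.Base

set_option autoImplicit false

/-!
`M(5, n) ≥ (n - 3) (n - 4)` for all `n ≥ 6`, which is the upper bound `μ(n, 5)`: in dimension 5
monotone paths can be as long as the largest possible number of vertices, for every number of
facets. The polyhedra are built one facet at a time from a simplex: each new facet cuts off all
but one of the vertices of a polygonal face, slightly and in a direction chosen so that the path
can be rerouted through all the new vertices.
-/

namespace Pool.Agent.Results.MP_113932_co.DimensionFive

open Pool.Agent.H81.MonoPath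

/-- For every `n ≥ 6` there is a `5`-dimensional polyhedron with exactly `n` facets which has a
monotone path with `(n - 3) (n - 4)` vertices, that is, `M(5, n) ≥ (n - 3) (n - 4) = μ(n, 5)`. -/
theorem result : ∀ n : ℕ, 6 ≤ n → HasMonotonePath 5 n ((n - 3) * (n - 4)) := by
  intro n hn
  obtain ⟨j, rfl⟩ := Nat.exists_eq_add_of_le hn
  have h := Pool.Agent.H81.MP5.hasMonotonePath_five j
  have e1 : 6 + j = j + 6 := by omega
  have e2 : (6 + j - 3) * (6 + j - 4) = (j + 3) * (j + 2) := by
    congr 1 <;> omega
  rw [e1] at e2 ⊢
  rw [e2]
  exact h

end Pool.Agent.Results.MP_113932_co.DimensionFive
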