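import Pool.Agent.H81.MPA.Final

set_option autoImplicit false

/-!
`M(d, n) ≥ (1 - 4 d² / n) μ(n, d)` for all `n > d ≥ 2`: in every dimension the longest monotone
paths on `d`-polyhedra with `n` facets are asymptotically as long as the largest possible number
`μ(n, d)` of vertices. The polyhedra are built one facet at a time. The path visits vertices of
depth `0, …, ⌊d/2⌋` with respect to a flag of faces of codimension `2, 4, …`; the new facet
`∑ (-δ)^(l-1) (x_l + y_l) + (-δ)^m`, formed from the pairs `x_l, y_l` of facets of the flag, cuts
the polyhedron near the flag, and a vertex of depth `t` of the path is replaced by two new vertices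
of depths `t` and `t - 1`, except for a bounded number of steps for each vertex.
-/

namespace Pool.Agent.Results.MP_113932_co.EveryDimension

open Pool.Agent.H81.MonoPath Pool.Agent.H81.MPA

/-- For all `n > d ≥ 2` there is a `d`-dimensional polyhedron with exactly `n` facets which has a
monotone path with `N` vertices, where `N ≥ (1 - 4 d² / n) μ(n, d)`. -/
theorem result : ∀ d n : ℕ, 2 ≤ d → d < n →
    ∃ N : ℕ, HasMonotonePath d n N ∧ n * mu n d ≤ n * N + 4 * d ^ 2 * mu n d :=
  fun d n hd hn => main d n hd hn

end Pool.Agent.Results.MP_113932_co.EveryDimension
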